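import Pool.Agent.X258.HQ.Grp
import Pool.Agent.H44D.Stmts
import Pool.Agent.H44D.Final
import Pool.Agent.H44D.B
import Pool.Agent.H44D.A
import Pool.Agent.H722R5.H44D_C1
import Pool.Agent.H886R3.TaskH44DC2
import Pool.Agent.H44D.C3

/-! # Homeomorphism groups of compact metrizable spaces with a nonconstant path -/

set_option autoImplicit false

namespace Pool.Agent.X258.HQ

open Set Topology Filter TopologicalSpace

attribute [local instance] homeoTop

/-- A Haar null set of a topological group (two-sided, with a Borel hull). -/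
def HaarNull {G : Type} [Group G] [TopologicalSpace G] (A : Set G) : Prop :=
  ∃ B : Set G, A ⊆ B ∧ @MeasurableSet G (borel G) B ∧
    ∃ μ : @MeasureTheory.Measure G (borel G), @MeasureTheory.IsProbabilityMeasure G (borel G) μ ∧
      ∀ g h : G, μ ((fun x => g * x * h) '' B) = 0

/-- The decomposition for Polish groups with a nonconstant path. -/
theorem decomp_path {G : Type} [Group G] [TopologicalSpace G] [IsTopologicalGroup G]
    [PolishSpace G] (γ : unitInterval → G) (hγ : Continuous γ) (h0 : γ 0 = 1) (h1 : γ 1 ≠ 1) :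
    ∃ A M : Set G, Disjoint A M ∧ A ∪ M = univ ∧ HaarNull A ∧ IsMeagre M := by
  let _ : MeasurableSpace G := borel G
  have : BorelSpace G := ⟨rfl⟩
  obtain ⟨A, B, hAB, hA, C, hC, hBC, μ, hμ, hnull⟩ :=
    (H44D.assembly H44D.taskA H44D.taskB H44D.taskC1 Pool.Agent.H886R3.DC2.taskC2 H44D.taskC3) G
      (not_nonarch γ hγ h0 h1)
  refine ⟨B \ A, A, disjoint_sdiff_left, ?_, ⟨C, sdiff_subset.trans hBC, hC, μ, hμ, hnull⟩, hA⟩
  rw [sdiff_union_self, union_comm, hAB]

/-- The homeomorphism `x ↦ x ^ (1 + t)` of the unit interval. -/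
noncomputable def pw (t : unitInterval) : unitInterval ≃ₜ unitInterval where
  toFun x := ⟨(x : ℝ) ^ (1 + (t : ℝ)), Real.rpow_nonneg x.2.1 _,
    Real.rpow_le_one x.2.1 x.2.2 (by linarith [t.2.1])⟩
  invFun x := ⟨(x : ℝ) ^ ((1 + (t : ℝ))⁻¹), Real.rpow_nonneg x.2.1 _,
    Real.rpow_le_one x.2.1 x.2.2 (inv_nonneg.2 (by linarith [t.2.1]))⟩
  left_inv x := by
    apply Subtype.ext
    have h : (1 + (t : ℝ)) ≠ 0 := by linarith [t.2.1]
    show ((x : ℝ) ^ (1 + (t : ℝ))) ^ ((1 + (t : ℝ))⁻¹) = x
    rw [← Real.rpow_mul x.2.1, mul_inv_cancel₀ h, Real.rpow_one]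
  right_inv x := by
    apply Subtype.ext
    have h : (1 + (t : ℝ)) ≠ 0 := by linarith [t.2.1]
    show ((x : ℝ) ^ ((1 + (t : ℝ))⁻¹)) ^ (1 + (t : ℝ)) = x
    rw [← Real.rpow_mul x.2.1, inv_mul_cancel₀ h, Real.rpow_one]
  continuous_toFun := by
    apply Continuous.subtype_mk
    exact continuous_subtype_val.rpow_const (fun x => Or.inr (by linarith [t.2.1]))
  continuous_invFun := by
    apply Continuous.subtype_mk
    exact continuous_subtype_val.rpow_const
      (fun x => Or.inr (inv_nonneg.2 (by linarith [t.2.1])))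

lemma pw_cont : Continuous (fun p : unitInterval × unitInterval => pw p.1 p.2) := by
  apply Continuous.subtype_mk
  apply Continuous.rpow (continuous_subtype_val.comp continuous_snd)
    (continuous_const.add (continuous_subtype_val.comp continuous_fst))
  intro p
  right
  show 0 < 1 + ((p.1 : unitInterval) : ℝ)
  linarith [p.1.2.1]

/-- the Hilbert cube -/
abbrev Cube : Type := ℕ → unitInterval

/-- the path -/
noncomputable def path (t : unitInterval) : Cube ≃ₜ Cube := Homeomorph.piCongrRight (fun _ => pw t)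

lemma path_apply (t : unitInterval) (x : Cube) (n : ℕ) : path t x n = pw t (x n) := rfl

lemma path_cont : Continuous path := by
  refine continuous_induced_rng.2 ?_
  let F : C(unitInterval × Cube, Cube) := ⟨fun p n => pw p.1 (p.2 n), by
    apply continuous_pi
    intro n
    exact pw_cont.comp (continuous_fst.prodMk ((continuous_apply n).comp continuous_snd))⟩
  have : toC ∘ path = F.curry := by
    funext t
    ext x n
    rfl
  rw [this]
  exact F.curry.continuous

lemma path_zero : path 0 = 1 := by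
  ext x n
  show ((pw 0 (x n) : unitInterval) : ℝ) = (x n : ℝ)
  show (x n : ℝ) ^ (1 + ((0 : unitInterval) : ℝ)) = x n
  simp

lemma path_one : path 1 ≠ 1 := by
  intro h
  have h1 := congrFun (DFunLike.congr_fun h (fun _ => ⟨1/2, by norm_num, by norm_num⟩)) 0
  have h2 := congrArg (fun y : unitInterval => (y : ℝ)) h1
  have h3 : ((1:ℝ)/2) ^ (1 + (1:ℝ)) = 1/2 := h2
  have h4 : (1 + (1:ℝ)) = ((2:ℕ) : ℝ) := by norm_num
  rw [h4, Real.rpow_natCast] at h3
  norm_num at h3

theorem cube_decomp : ∃ A M : Set (Cube ≃ₜ Cube), Disjoint A M ∧ A ∪ M = univ ∧ HaarNull A ∧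
    IsMeagre M := by
  have : IsTopologicalGroup (Cube ≃ₜ Cube) := topGroup
  have : PolishSpace (Cube ≃ₜ Cube) := polish
  exact decomp_path path path_cont path_zero path_one

end Pool.Agent.X258.HQ
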