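import Mathlib

/-! # The Polish group of homeomorphisms of a compact metrizable space -/

set_option autoImplicit false

namespace Pool.Agent.X258.HQ

open Set Topology Filter TopologicalSpace

variable {M : Type*} [TopologicalSpace M]

/-- a homeomorphism as a continuous map -/
def toC (h : M ≃ₜ M) : C(M, M) := ⟨h, h.continuous⟩

@[simp] lemma toC_apply (h : M ≃ₜ M) (x : M) : toC h x = h x := rfl

/-- The topology of the homeomorphism group: induced by the compact-open topology of `C(M, M)`. -/
abbrev homeoTop (M : Type*) [TopologicalSpace M] : TopologicalSpace (M ≃ₜ M) :=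
  TopologicalSpace.induced toC inferInstance

attribute [local instance] homeoTop

lemma toC_cont : Continuous (toC (M := M)) := continuous_induced_dom

lemma toC_inj : Function.Injective (toC (M := M)) := by
  intro h k hk
  ext x
  exact DFunLike.congr_fun hk x

lemma mul_cont [LocallyCompactSpace M] : Continuous (fun p : (M ≃ₜ M) × (M ≃ₜ M) => p.1 * p.2) := by
  refine continuous_induced_rng.2 ?_
  have : (toC ∘ fun p : (M ≃ₜ M) × (M ≃ₜ M) => p.1 * p.2) =
      fun p => (toC p.1).comp (toC p.2) := by
    funext p; ext x; rfl
  rw [this]
  exact ContinuousMap.continuous_comp'.comp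
    ((toC_cont.comp continuous_snd).prodMk (toC_cont.comp continuous_fst))

lemma inv_cont [CompactSpace M] [T2Space M] : Continuous (fun h : M ≃ₜ M => h⁻¹) := by
  refine continuous_induced_rng.2 ?_
  rw [ContinuousMap.compactOpen_eq, continuous_generateFrom_iff]
  rintro _ ⟨K, hK, U, hU, rfl⟩
  have h1 : (toC ∘ fun h : M ≃ₜ M => h⁻¹) ⁻¹' {f : C(M, M) | MapsTo f K U} =
      toC ⁻¹' {f : C(M, M) | MapsTo f Uᶜ Kᶜ} := by
    ext h
    simp only [mem_preimage, Function.comp_apply, mem_ofPred_eq]
    constructor
    · intro hm x hx hxK
      have := hm hxK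
      apply hx
      have h2 : (toC h⁻¹) (toC h x) = x := h.symm_apply_apply x
      rw [h2] at this
      exact this
    · intro hm y hy
      by_contra hyU
      have := hm hyU
      apply this
      have h2 : toC h ((toC h⁻¹) y) = y := h.apply_symm_apply y
      rw [h2]
      exact hy
  rw [h1]
  exact (ContinuousMap.isOpen_setOfPred_mapsTo hU.isClosed_compl.isCompact
    hK.isClosed.isOpen_compl).preimage toC_cont

theorem topGroup [CompactSpace M] [T2Space M] : IsTopologicalGroup (M ≃ₜ M) where
  continuous_mul := mul_cont
  continuous_inv := inv_cont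

theorem polish [CompactSpace M] [T2Space M] [SecondCountableTopology M] :
    PolishSpace (M ≃ₜ M) := by
  have : PolishSpace M := by
    let _ := TopologicalSpace.metrizableSpaceMetric M
    infer_instance
  have : PolishSpace C(M, M) := by
    let _ := upgradeIsCompletelyMetrizable M
    infer_instance
  let emb : (M ≃ₜ M) → C(M, M) × C(M, M) := fun h => (toC h, toC h⁻¹)
  have hc : Continuous emb := toC_cont.prodMk (toC_cont.comp inv_cont)
  have hind : IsInducing emb := by
    refine ⟨le_antisymm hc.le_induced ?_⟩
    have h1 : (homeoTop M) = TopologicalSpace.induced emb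
        (TopologicalSpace.induced Prod.fst inferInstance) := by
      rw [induced_compose]
      rfl
    rw [h1]
    exact induced_mono inf_le_left
  have hinj : Function.Injective emb := fun h k hk => toC_inj (congrArg Prod.fst hk)
  have hr : range emb = {p : C(M, M) × C(M, M) | p.1.comp p.2 = ContinuousMap.id M ∧
      p.2.comp p.1 = ContinuousMap.id M} := by
    ext p
    constructor
    · rintro ⟨h, rfl⟩
      constructor
      · ext x
        exact h.apply_symm_apply x
      · ext x
        exact h.symm_apply_apply x
    · rintro ⟨h1, h2⟩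
      refine ⟨{ toFun := p.1, invFun := p.2, left_inv := fun x => DFunLike.congr_fun h2 x,
                right_inv := fun x => DFunLike.congr_fun h1 x,
                continuous_toFun := p.1.continuous, continuous_invFun := p.2.continuous }, ?_⟩
      apply Prod.ext
      · ext x; rfl
      · ext x; rfl
  have hcl : IsClosed (range emb) := by
    rw [hr]
    have k1 : Continuous (fun p : C(M, M) × C(M, M) => p.1.comp p.2) :=
      ContinuousMap.continuous_comp' |>.comp (continuous_snd.prodMk continuous_fst)
    have k2 : Continuous (fun p : C(M, M) × C(M, M) => p.2.comp p.1) :=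
      ContinuousMap.continuous_comp' |>.comp (continuous_fst.prodMk continuous_snd)
    exact (isClosed_eq k1 continuous_const).inter (isClosed_eq k2 continuous_const)
  have : IsClosedEmbedding emb := ⟨⟨hind, hinj⟩, hcl⟩
  exact this.polishSpace

/-- A group with a nonconstant path has a neighbourhood of the identity without open subgroup. -/
theorem not_nonarch {G : Type*} [Group G] [TopologicalSpace G] [IsTopologicalGroup G] [T1Space G]
    (γ : unitInterval → G) (hγ : Continuous γ) (h0 : γ 0 = 1) (h1 : γ 1 ≠ 1) :
    ∃ U ∈ 𝓝 (1 : G), ∀ H : Subgroup G, IsOpen (H : Set G) → ¬ (H : Set G) ⊆ U := by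
  refine ⟨{γ 1}ᶜ, isOpen_compl_singleton.mem_nhds (fun h => h1 h.symm), ?_⟩
  intro H hH hsub
  have hcl : IsClopen (γ ⁻¹' (H : Set G)) := ⟨(H.isClosed_of_isOpen hH).preimage hγ, hH.preimage hγ⟩
  have huniv : γ ⁻¹' (H : Set G) = univ := by
    rcases isClopen_iff.1 hcl with h | h
    · exfalso
      have : (0 : unitInterval) ∈ γ ⁻¹' (H : Set G) := by
        show γ 0 ∈ (H : Set G)
        rw [h0]
        exact H.one_mem
      rw [h] at this
      exact this
    · exact h
  have : (1 : unitInterval) ∈ γ ⁻¹' (H : Set G) := by rw [huniv]; trivial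
  exact hsub this rfl

end Pool.Agent.X258.HQ
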